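import Pool.Agent.MP_a58584_gt.Mg.Main

set_option autoImplicit false

universe u

namespace Pool.Agent.Results.MP_a58584_gt.TychonoffCube

/-- Every non-metrizable t-extral space contains a copy of the Tychonoff cube of weight aleph one.
Here X is t-extral if for every closed embedding e of X in a Tychonoff space Z there is a map from
the continuous real functions on X to those on Z, continuous for the topologies of pointwise
convergence, that extends every function along e. -/
theorem result (X : Type u) [TopologicalSpace X] [T35Space X]
    (hX : ∀ (Z : Type u) [TopologicalSpace Z] [T35Space Z] (e : X → Z),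
      Topology.IsClosedEmbedding e →
      ∃ φ : {f : X → ℝ // Continuous f} → {g : Z → ℝ // Continuous g},
        Continuous φ ∧ ∀ (f : {f : X → ℝ // Continuous f}) (x : X), (φ f).1 (e x) = f.1 x)
    (hm : ¬ TopologicalSpace.MetrizableSpace X)
    (I : Type u) (hI : Cardinal.mk I = Cardinal.aleph 1) :
    ∃ h : (I → unitInterval) → X, Topology.IsEmbedding h :=
  Pool.Agent.MP_a58584_gt.exists_cube hX hm I hI

end Pool.Agent.Results.MP_a58584_gt.TychonoffCube
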